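import Pool.Agent.H255R.MR.Top

/-!
# Density of the regulators of products of regular surfaces and of products of curves
-/

open CategoryTheory AlgebraicGeometry

universe u v w x

namespace Pool.Agent.Results.MP_b2b689_ag.RegularSurfaces

open Pool.Agent.H914 Pool.Agent.H914.VarClass Pool.Agent.H914.VarClass.Obj Pool.Agent.W492.BB
  Pool.Agent.W550.Corr Pool.Agent.TH133 Pool.Agent.H255R.HR Pool.Agent.H255R.MR

/-- Consider the smooth projective varieties `X` over `ℂ` which can be defined over a number
field, and fix an integer `m = 2 j - i`. Let `M(X)` be the sum over `j` of the motivic cohomology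
groups `H^{2j-m}_M(X, ℚ(j))`, let `D(X)` be the sum of the absolute Hodge cohomology groups
`H^{2j-m}_H(X, ℚ(j))` with their topology, and let `φ` be the regulator. More generally, let
`φ : M → D` be a transformation of module theories over the Chow groups, where `M` and `D` are
graded by weights, and `D` carries a topology.

Let `𝒞` be a class of curves with `HasGalQuotients` (for example all curves which can be defined over
a number field, or one hyperelliptic curve). For all varieties `U` and all `R` and `N` the following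
statements are equivalent.

1. The regulators have dense image in the weights at most `R` for the varieties `U × A` and
`U × A × S`, where `A` is a product of at most `N` regular surfaces dominated by products of two
curves in `𝒞`, and `S` is a curve in `𝒞`.
2. The same without the condition that the surfaces be regular.
3. The regulators have dense image in the weights at most `R` for `U × W`, where `W` is a product
of at most `2 N + 1` curves in `𝒞`.
4. The regulators have dense image in the weights at most `R` for all varieties which are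
dominated by varieties `U × W` as in 3. -/
theorem result {k : Type u} [Field k] {𝒱 : VarClass k} (C : TheoryData.{u, v, 0} 𝒱 ℚ)
    [IsChowProj C] {F : Type w} [Field F] [CharZero F] (H : WeilTheoryData.{u, v, w} C F)
    [IsWeilProj H] (M D : ModData.{u, v, x} C) (hM : IsModTheory M) (hD : IsModTheory D)
    [∀ X, TopologicalSpace (D.A X)] (hτ : IsTopological D)
    (φ : ∀ X, M.A X → D.A X) (hφ : IsTransformation M D φ) (𝓜 : Fam M) (𝓓 : Fam D)
    (𝒞 : 𝒱.Obj → Prop) (hG : HasGalQuotients.{u, v, w, x} H 𝒞) (U : 𝒱.Obj) (R : ℤ) (N : ℕ) :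
    List.TFAE [
      ∀ m ≤ N, ∀ A : 𝒱.Obj, IsProdOf U (IsRegDominated.{u, v, w, x} H 𝒞) m A →
        DenseUpTo φ 𝓜 𝓓 R A ∧ ∀ S : 𝒱.Obj, 𝒞 S → DenseUpTo φ 𝓜 𝓓 R (A.prod S),
      ∀ m ≤ N, ∀ A : 𝒱.Obj, IsProdOf U (IsDominated.{u, v, x} C 𝒞) m A →
        DenseUpTo φ 𝓜 𝓓 R A ∧ ∀ S : 𝒱.Obj, 𝒞 S → DenseUpTo φ 𝓜 𝓓 R (A.prod S),
      ∀ l ≤ 2 * N + 1, ∀ W : 𝒱.Obj, IsProdOf U 𝒞 l W → DenseUpTo φ 𝓜 𝓓 R W,
      ∀ l ≤ 2 * N + 1, ∀ W X : 𝒱.Obj, IsProdOf U 𝒞 l W → IsDominatedBy C W X →
        DenseUpTo φ 𝓜 𝓓 R X] :=
  tfae1 (M := D) (𝓜 := 𝓓) (𝓝 := closFam hτ (imFam hφ 𝓜)) hG U R N _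
    fun X => (good_dense hφ hτ 𝓜 𝓓 R X).symm

end Pool.Agent.Results.MP_b2b689_ag.RegularSurfaces
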